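import Mathlib
import Pool.Agent.Q103.OP.Fam

/-!
# Strong uniform boundedness for 100% of the members of every non-isotrivial family of rational maps
over number fields, except families of flexible Lattes maps
-/

namespace Pool.Agent.Results.MP_90787a_nt.AllFamiliesExceptLattes

open Polynomial NumberField Filter Topology

/-- The self-map of the projective line `K ∪ {∞}`, where `none` is `∞`, given by the rational
function `p / q`, where `p` and `q` are coprime and `d` is the larger of their degrees: it sends
`x` to `p(x) / q(x)`, or to `∞` when `q(x) = 0`, and it sends `∞` to the quotient of the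
coefficients of degree `d`, or to `∞` when that of `q` is zero. -/
noncomputable def mapP1 {K : Type*} [Field K] (p q : K[X]) (d : ℕ) : Option K → Option K
  | some x => by classical exact if q.eval x = 0 then none else some (p.eval x / q.eval x)
  | none => by classical exact if q.coeff d = 0 then none else some (p.coeff d / q.coeff d)

/-- With `φ(x) = (a x + b) / (c x + e)`, the map `p / q` of degree `d` satisfies
`φ ∘ (p / q) = (u / w) ∘ φ` for some `a, b, c, e` in `K` with `a e ≠ b c` and some polynomials
`u, w` of degree at most `d`, not both zero, with coefficients algebraic over `k`; the equation is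
written with denominators cleared. For an algebraically closed field `K` this says that `p / q` is
isotrivial. -/
def Isotrivial (k : Type*) {K : Type*} [Field k] [Field K] [Algebra k K] (p q : K[X])
    (d : ℕ) : Prop :=
  ∃ a b c e : K, a * e - b * c ≠ 0 ∧ ∃ u w : K[X], (u ≠ 0 ∨ w ≠ 0) ∧
    u.natDegree ≤ d ∧ w.natDegree ≤ d ∧ (∀ n, IsAlgebraic k (u.coeff n)) ∧
    (∀ n, IsAlgebraic k (w.coeff n)) ∧
    (C a * p + C b * q) * ∑ i ∈ Finset.range (d + 1),
      C (w.coeff i) * (C a * X + C b) ^ i * (C c * X + C e) ^ (d - i) =
    (C c * p + C e * q) * ∑ i ∈ Finset.range (d + 1),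
      C (u.coeff i) * (C a * X + C b) ^ i * (C c * X + C e) ^ (d - i)

/-- The map `f = p / q` of degree `d` is a flexible Lattes map (`K` is algebraically closed of
characteristic zero): there is a rational function `φ = r / s`, not zero, such that
`φ(f(z)) f'(z) ^ 2 = d φ(z)` for all `z` in `K` at which the denominators do not vanish. -/
def FlexibleLattes {K : Type*} [Field K] (p q : K[X]) (d : ℕ) : Prop :=
  ∃ r s : K[X], r ≠ 0 ∧ s ≠ 0 ∧ ∀ z : K, q.eval z ≠ 0 → s.eval z ≠ 0 →
    s.eval (p.eval z / q.eval z) ≠ 0 →
    r.eval (p.eval z / q.eval z) / s.eval (p.eval z / q.eval z) *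
      ((derivative p * q - p * derivative q).eval z / q.eval z ^ 2) ^ 2 =
    (d : K) * (r.eval z / s.eval z)

/-- The field `k(t_1, ..., t_m)`. -/
abbrev RF (k : Type) [Field k] (m : ℕ) : Type := FractionRing (MvPolynomial (Fin m) k)

/-- `P ∈ k[t_1, ..., t_m][x]` as a polynomial over `k(t_1, ..., t_m)`. -/
noncomputable def generic {k : Type} [Field k] {m : ℕ} (P : (MvPolynomial (Fin m) k)[X]) :
    (RF k m)[X] :=
  P.map (algebraMap (MvPolynomial (Fin m) k) (RF k m))

/-- `P ∈ k[t_1, ..., t_m][x]` as a polynomial over an algebraic closure of `k(t_1, ..., t_m)`. -/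
noncomputable def genBar {k : Type} [Field k] {m : ℕ} (P : (MvPolynomial (Fin m) k)[X]) :
    (AlgebraicClosure (RF k m))[X] :=
  (generic P).map (algebraMap (RF k m) (AlgebraicClosure (RF k m)))

/-- The specialisation of `P ∈ k[t_1, ..., t_m][x]` at `t = (v_1 / v_0, ..., v_m / v_0)`. -/
noncomputable def special {k : Type} [Field k] {m : ℕ} (v : Fin (m + 1) → 𝓞 k)
    (P : (MvPolynomial (Fin m) k)[X]) : k[X] :=
  P.map (MvPolynomial.eval fun l : Fin m =>
    algebraMap (𝓞 k) k (v l.succ) / algebraMap (𝓞 k) k (v 0))

/-- The preperiodic points of degree at most `B` over `k` of the map `p / q` of degree `d`, in the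
projective line over an algebraic closure of `k`. -/
noncomputable def preper {k : Type} [Field k] (p q : k[X]) (d B : ℕ) :
    Set (Option (AlgebraicClosure k)) :=
  {z | (Set.range fun n : ℕ => (mapP1 (p.map (algebraMap k (AlgebraicClosure k)))
      (q.map (algebraMap k (AlgebraicClosure k))) d)^[n] z).Finite ∧
    ∀ x, z = some x → (minpoly k x).natDegree ≤ B}

/-- The vectors of integers of `k` whose coordinates with respect to the basis `ω` are at most `H`
in absolute value. -/
def box {k : Type} [Field k] {J : Type} (ω : Module.Basis J ℤ (𝓞 k)) (m H : ℕ) :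
    Set (Fin (m + 1) → 𝓞 k) :=
  {v | ∀ l j, |ω.repr (v l) j| ≤ (H : ℤ)}

/-- The set `S` contains 100% of the vectors in the boxes. -/
def AlmostAll {k : Type} [Field k] {J : Type} (ω : Module.Basis J ℤ (𝓞 k)) (m : ℕ)
    (S : Set (Fin (m + 1) → 𝓞 k)) : Prop :=
  Tendsto (fun H : ℕ => (({v | v ∈ box ω m H ∧ v ∈ S}.ncard : ℝ) / ((box ω m H).ncard : ℝ)))
    atTop (𝓝 1)

/-- **Strong uniform boundedness for 100% of the members of every family.** There is a function `N`
such that the following holds for every number field `k` (of any degree), every integral basis `ω`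
of `k`, every `d ≥ 2`, `B ≥ 1` and every `m`. Let `P / Q` be a rational map of degree `d` over
`k(t_1, ..., t_m)`, `P, Q ∈ k[t_1, ..., t_m][x]`, which is not isotrivial. Suppose that `d` is not
a perfect square or that `P / Q` is not a flexible Lattes map. Then for 100% of the vectors
`(v_0, v_1, ..., v_m)` of integers of `k` (in the boxes given by the basis `ω`) `v_0 ≠ 0` and the
specialisation at `t = (v_1 / v_0, ..., v_m / v_0)` has degree `d` and at most `N(B, d)`
preperiodic points of degree at most `B` over `k`. -/
theorem result : ∃ N : ℕ → ℕ → ℕ, ∀ (k : Type) [Field k] [NumberField k] (J : Type) [Fintype J]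
    (ω : Module.Basis J ℤ (𝓞 k)) (d B : ℕ), 2 ≤ d → 1 ≤ B →
    ∀ (m : ℕ) (P Q : (MvPolynomial (Fin m) k)[X]), max P.natDegree Q.natDegree = d →
      IsCoprime (generic P) (generic Q) → ¬ Isotrivial k (genBar P) (genBar Q) d →
      (¬ IsSquare d ∨ ¬ FlexibleLattes (genBar P) (genBar Q) d) →
      AlmostAll ω m {v | v 0 ≠ 0 ∧ IsCoprime (special v P) (special v Q) ∧
        max (special v P).natDegree (special v Q).natDegree = d ∧
        (preper (special v P) (special v Q) d B).encard ≤ ((N B d : ℕ) : ℕ∞)} := by
  obtain ⟨N, hN⟩ := Pool.Agent.Q103.OP.Fam.fam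
  have e : ∀ (K : Type) [Field K] (p q : K[X]) (d : ℕ),
      mapP1 p q d = Pool.Agent.W277.UH.ratP1 p q d := by
    intro K _ p q d
    funext z
    cases z <;> rfl
  have e1 : ∀ (k : Type) [Field k] (p q : k[X]) (d B : ℕ),
      preper p q d B = Pool.Agent.Y706.BI.preperB p q d B := by
    intro k _ p q d B
    unfold preper Pool.Agent.Y706.BI.preperB
    rw [e]
  refine ⟨N, ?_⟩
  intro k _ _ J _ ω d B hd hB m P Q hmax hco hiso hcase
  have hcz0 : CharZero (RF k m) :=
    charZero_of_injective_algebraMap (R := k) (algebraMap k _).injective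
  have hcz1 : CharZero (AlgebraicClosure (RF k m)) :=
    charZero_of_injective_algebraMap (algebraMap (RF k m) (AlgebraicClosure (RF k m))).injective
  have hinj : Function.Injective (algebraMap (MvPolynomial (Fin m) k) (RF k m)) :=
    IsFractionRing.injective _ _
  have hlat : ¬ Pool.Agent.Q103.OP.Lat d (genBar P) (genBar Q) := by
    intro hlat
    rcases hcase with h | h
    · refine h (Pool.Agent.Q103.OP.t_SQR _ d hd _ _ ⟨?_, ?_⟩ hlat)
      · exact (isCoprime_map _).mpr hco
      · have hdeg : ∀ P : (MvPolynomial (Fin m) k)[X], (genBar P).natDegree = P.natDegree := by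
          intro P
          unfold genBar generic
          rw [natDegree_map_eq_of_injective (algebraMap (RF k m) _).injective,
            natDegree_map_eq_of_injective hinj]
        rw [hdeg, hdeg]
        exact hmax
    · apply h
      obtain ⟨e, r, s, hr, hs, hre, hse, hid⟩ := hlat
      refine ⟨r, s, hr, hs, fun z hq hsz hsf => ?_⟩
      have h1 := congrArg (eval z) hid
      simp only [eval_mul, eval_pow, eval_C] at h1
      rw [Pool.Agent.W277.UH.hc_eval, Pool.Agent.W277.UH.hc_eval,
        Pool.Agent.W277.UH.hev_eval e r hre ((genBar P).eval z, (genBar Q).eval z) hq,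
        Pool.Agent.W277.UH.hev_eval e s hse ((genBar P).eval z, (genBar Q).eval z) hq] at h1
      simp only at h1
      have hqe : (genBar Q).eval z ^ e ≠ 0 := pow_ne_zero _ hq
      have h2 : r.eval ((genBar P).eval z / (genBar Q).eval z) *
          (Pool.Agent.Q103.OP.Wr (genBar P) (genBar Q)).eval z ^ 2 * s.eval z =
          (d : AlgebraicClosure (RF k m)) * r.eval z *
            s.eval ((genBar P).eval z / (genBar Q).eval z) * (genBar Q).eval z ^ 4 := by
        apply mul_left_cancel₀ hqe
        linear_combination h1
      have h3 : (Pool.Agent.Q103.OP.Wr (genBar P) (genBar Q)).eval z =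
          (derivative (genBar P) * genBar Q - genBar P * derivative (genBar Q)).eval z := rfl
      rw [h3] at h2
      rw [div_pow, div_mul_div_comm, mul_div_assoc',
        div_eq_div_iff (mul_ne_zero hsf (by positivity)) hsz]
      linear_combination h2
  have h := hN k J ω d B hd hB m P Q hmax hco hiso hlat
  have e2 : ∀ v : Fin (m + 1) → 𝓞 k, (preper (special v P) (special v Q) d B).encard =
      (Pool.Agent.Y706.BI.preperB (Pool.Agent.Y706.BI.special v P)
        (Pool.Agent.Y706.BI.special v Q) d B).encard := fun v => by rw [e1]; rfl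
  simp only [e2]
  exact h

end Pool.Agent.Results.MP_90787a_nt.AllFamiliesExceptLattes
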