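import Mathlib
import Pool.Agent.Q103.LTS.Ht
import Pool.Agent.Results.MP_160b6c_nt.SmallDigitInvariants

/-!
# An absolute bound for the number of the preperiodic points of the Lattès maps of all elliptic curves
# whose invariants are composed of numbers with small digits, over all number fields

Let `E : y² = x³ + a x + b` be an elliptic curve over a number field `K`. The Lattès maps of `E` are
the maps `φ_m` of degree `m²` of the projective line with `φ_m (x(P)) = x(m P)`; for `m = 2` this is
`(x⁴ - 2 a x² - 8 b x + a²) / (4 (x³ + a x + b))`. Morton and Silverman's conjecture asks for a bound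
for the number of the preperiodic points of `φ_m` in `K` in terms of the degrees of `K` and of the
map.

Let `t` be an integer of `K` all of whose conjugates are at least `T` in absolute value (the base).
The invariant `j ∈ K` is composed of numbers with small digits in the base `t` if
`(j : 1728 - j : -1728)` has coordinates `b k * ∏ i, F i (t) ^ e k i` with pairwise coprime numbers
`F i (t)` with small digits, at most `D` in all, small `b k`, and exponents at most `T ^ δ`, and the
product of the `F i (t)` which occur with different exponents in the coordinates is squarefree. These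
are the invariants of the elliptic curves for which `c₄`, `c₆` and `Δ` are such products.

For all elliptic curves with such invariants, over all number fields `K`, and all `m ≥ 2`, we show
that the Lattès map `φ_m` has at most `4 ^ 1009` preperiodic points in `K`, and that they have at most
`1008` iterates each. The bounds depend on neither of the two degrees, and there are similar bounds
over all extensions of small root discriminant.
-/

set_option autoImplicit false

namespace Pool.Agent.Results.MP_90787a_nt.LattesSmallDigits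

open NumberField IsDedekindDomain
open Pool.Agent.TH942 (SPt)
open Pool.Agent.Results.MP_9a3c31_nt.SmallDigitInvariants (Composed)
open Pool.Agent.Results.MP_160b6c_nt.DegreeFreeTorsion (jInv rootDisc absH TorsionLe)

/-- `v` is preperiodic for `φ` (a map in homogeneous coordinates) as a point of the projective
line: two iterates are proportional. -/
def Preperiodic {L : Type} [Field L] (φ : L × L → L × L) (v : L × L) : Prop :=
  ∃ i k : ℕ, k < i ∧ (φ^[i] v).1 * (φ^[k] v).2 = (φ^[i] v).2 * (φ^[k] v).1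

/-- The point `v = (v.1 : v.2)` of the projective line is `x(P) / D`, where `P` is a point of the
quadratic twist `y² = x³ + D² a x + D³ b` of `y² = x³ + a x + b`. -/
def Below {L : Type} [Field L] {a b : L} (D : L) (P : SPt (a * D ^ 2) (b * D ^ 3)) (v : L × L) :
    Prop :=
  ∃ c : L, c ≠ 0 ∧ v = (c * P.xRep 0, c * D * P.xRep 1)

open Classical in
/-- `φ` (in homogeneous coordinates) is the Lattès map `x(P) ↦ x(m P)` of `y² = x³ + a x + b`, on the
projective line over `L`: all points of the line over `L` come from the points over `L` of the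
quadratic twists. -/
def IsLattes {L : Type} [Field L] (m : ℕ) (a b : L) (φ : L × L → L × L) : Prop :=
  ∀ D : L, D ≠ 0 → ∀ (P : SPt (a * D ^ 2) (b * D ^ 3)) (v : L × L), Below D P v →
    Below D (m • P) (φ v)

/-- the Lattès map of degree `4` in homogeneous coordinates -/
def lattes {L : Type} [Field L] (a b : L) (v : L × L) : L × L :=
  (v.1 ^ 4 - 2 * a * v.1 ^ 2 * v.2 ^ 2 - 8 * b * v.1 * v.2 ^ 3 + a ^ 2 * v.2 ^ 4,
    4 * v.2 * (v.1 ^ 3 + a * v.1 * v.2 ^ 2 + b * v.2 ^ 3))

/-- There are at most `4 ^ (N + 1)` preperiodic points of `φ` in `L` (apart from the point at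
infinity), and each of them has at most `N` iterates, itself included. -/
def Bounds {L : Type} [Field L] (N : ℕ) (φ : L × L → L × L) : Prop :=
  (∀ s : Finset L, (∀ x ∈ s, Preperiodic φ (x, 1)) → s.card ≤ 4 ^ (N + 1)) ∧
  (∀ x : L, Preperiodic φ (x, 1) → ∃ i k : ℕ, k < i ∧ i ≤ N ∧
    (φ^[i] (x, 1)).1 * (φ^[k] (x, 1)).2 = (φ^[i] (x, 1)).2 * (φ^[k] (x, 1)).1)

open Classical in
private theorem bound_of {L : Type} [Field L] [NumberField L] {B : ℝ} {a b : L}
    (hD : 4 * a ^ 3 + 27 * b ^ 2 ≠ 0) (h : TorsionLe B (jInv a b)) (m : ℕ) (φ : L × L → L × L)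
    (hm : 2 ≤ m) (hφ : IsLattes m a b φ) : Bounds ⌊B⌋₊ φ := by
  suffices hT : ∀ D : L, D ≠ 0 → ∀ P : SPt (a * D ^ 2) (b * D ^ 3), IsOfFinAddOrder P →
      addOrderOf P ≤ ⌊B⌋₊ from
    ⟨fun s hs => Pool.Agent.Q103.LTS.count_preper hD ⌊B⌋₊ hT hm hφ s hs,
      fun x hx => Pool.Agent.Q103.LTS.short_orbit hD ⌊B⌋₊ hT hm hφ x hx⟩
  intro D hD0 P hP
  have hj' : jInv (a * D ^ 2) (b * D ^ 3) = jInv a b := by
    unfold jInv
    have h1 : 4 * (a * D ^ 2) ^ 3 + 27 * (b * D ^ 3) ^ 2 = D ^ 6 * (4 * a ^ 3 + 27 * b ^ 2) := by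
      ring
    have h2 : 6912 * (a * D ^ 2) ^ 3 = D ^ 6 * (6912 * a ^ 3) := by ring
    rw [h1, h2, mul_div_mul_left _ _ (pow_ne_zero _ hD0)]
  have h2 : IsOfFinAddOrder (fun _ : Fin 1 => P) := by
    rw [isOfFinAddOrder_iff_nsmul_eq_zero] at hP ⊢
    obtain ⟨n, hn, hn0⟩ := hP
    refine ⟨n, hn, ?_⟩
    funext k
    rw [Pi.smul_apply, hn0, Pi.zero_apply]
  have h3 := h _ _ (Pool.Agent.Q103.LTS.twist_disc hD0 hD) hj' 1 (fun _ => P) h2
  have h4 : addOrderOf P ≤ addOrderOf (fun _ : Fin 1 => P) := by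
    apply addOrderOf_le_of_nsmul_eq_zero h2.addOrderOf_pos
    have h5 := congrFun (addOrderOf_nsmul_eq_zero (fun _ : Fin 1 => P)) 0
    rwa [Pi.smul_apply, Pi.zero_apply] at h5
  exact h4.trans (Nat.le_floor h3)

/-- **Main theorem.** For all `D` there are `δ > 0` and `T₀` such that for all `T ≥ T₀` and all number
fields `K`:
(1) for all elliptic curves over `K` whose invariant is composed of numbers with small digits and all
`m ≥ 2` the Lattès map `x(P) ↦ x(m P)` has at most `4 ^ 1009` preperiodic points in `K`, and each of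
them has at most `1008` iterates;
(2) for `θ > 0`, `κ ≥ 0` and `θ + κ ≤ 1 / 12` (with `δ` and `T₀` depending also on `θ`) and all `j ∈ K`
composed of numbers with small digits, the same holds, with `1008` replaced by `28 / θ ^ 2`, for the
Lattès maps of all elliptic curves over `L` of invariant `j`, for all finite extensions `L` of `K`, of
whatever degree, with root discriminant at most `δ_K * H(j) ^ κ`.
(3) The map of degree `4` is the Lattès map with `m = 2`. -/
theorem result :
    (∀ D : ℕ, ∃ δ : ℝ, 0 < δ ∧ ∃ T₀ : ℝ, 1 ≤ T₀ ∧ ∀ T : ℝ, T₀ ≤ T →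
      ∀ (K : Type) [Field K] [NumberField K] (t : 𝓞 K) (a b : K), 4 * a ^ 3 + 27 * b ^ 2 ≠ 0 →
        Composed D δ T t (jInv a b) →
        ∀ (m : ℕ) (φ : K × K → K × K), 2 ≤ m → IsLattes m a b φ → Bounds 1008 φ) ∧
    (∀ (D : ℕ) (θ : ℝ), 0 < θ → ∃ δ : ℝ, 0 < δ ∧ ∃ T₀ : ℝ, 1 ≤ T₀ ∧ ∀ T : ℝ, T₀ ≤ T →
      ∀ (K : Type) [Field K] [NumberField K] (t : 𝓞 K) (j : K) (κ : ℝ), Composed D δ T t j →
        0 ≤ κ → θ + κ ≤ 1 / 12 →
        ∀ (L : Type) [Field L] [NumberField L] [Algebra K L],
        rootDisc L ≤ rootDisc K * Real.exp (κ * absH j) →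
        ∀ a b : L, 4 * a ^ 3 + 27 * b ^ 2 ≠ 0 → jInv a b = algebraMap K L j →
        ∀ (m : ℕ) (φ : L × L → L × L), 2 ≤ m → IsLattes m a b φ → Bounds ⌊28 / θ ^ 2⌋₊ φ) ∧
    (∀ (L : Type) [Field L] [CharZero L] (a b : L), 4 * a ^ 3 + 27 * b ^ 2 ≠ 0 →
      IsLattes 2 a b (lattes a b)) := by
  classical
  refine ⟨?_, ?_, ?_⟩
  · intro D
    obtain ⟨⟨δ, hδ, T₀, hT₀, h⟩, -⟩ := MP_160b6c_nt.SmallDigitInvariants.result D
    refine ⟨δ, hδ, T₀, hT₀, ?_⟩
    intro T hT K _ _ t a b hD hj m φ hm hφ
    have h1 := bound_of hD ((h T hT K).1 t _ hj) m φ hm hφ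
    have h2 : ⌊(1008 : ℝ)⌋₊ = 1008 := by exact_mod_cast Nat.floor_natCast 1008
    rwa [h2] at h1
  · intro D θ hθ
    obtain ⟨-, h0⟩ := MP_160b6c_nt.SmallDigitInvariants.result D
    obtain ⟨δ, hδ, T₀, hT₀, h⟩ := h0 θ hθ
    refine ⟨δ, hδ, T₀, hT₀, ?_⟩
    intro T hT K _ _ t j κ hj hκ hθκ L _ _ _ hL a b hD hab m φ hm hφ
    refine bound_of hD ?_ m φ hm hφ
    rw [hab]
    exact (h T hT K κ hκ hθκ).1 t j hj L hL
  · intro L _ _ a b hD D hD0 P v hv
    have := Pool.Agent.Q103.LTS.isLattes_lat hD D hD0 P v hv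
    exact this

end Pool.Agent.Results.MP_90787a_nt.LattesSmallDigits
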