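import Pool.Agent.Q183.UD.Words

/-!
# Uniform boundedness of the set of points of the line with recurrent orbits

There are functions `B` and `κ` of `(R, d)` which depend only on the number `s` of rational functions
and on the bound `D` for their degrees, such that the following holds for all fields `K` of
characteristic zero and all rational functions `φ 1, ..., φ s` over `K` of degrees between `2` and
`D`.

(a) There are at most `κ` points `Q` of the projective line over `K` for which the first `B` points
of the orbit `Q, φ (w 0) (Q), φ (w 1) (φ (w 0) (Q)), ...` along at least one word `w` in the rational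
functions have homogeneous coordinates satisfying linear recurrences of order at most `R` with
polynomials of degree at most `d` in the index as coefficients.

(b) For a single rational function these points `Q` are preperiodic, and the orbit of `Q` has at most
`B` points.
-/

set_option autoImplicit false

namespace Pool.Agent.Results.MP_90787a_nt.RecurrentPreperiodic

open MvPolynomial Pool.Agent.Q183.UD Pool.Agent.Q183.UH
open scoped LinearAlgebra.Projectivization

theorem result (s D : ℕ) : ∃ B κ : ℕ → ℕ → ℕ,
    ∀ (K : Type) [Field K] [CharZero K] (f : Fin s → Fin 2 → MvPolynomial (Fin 2) K)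
      (hf : ∀ k, IsMor D (f k)) (R d : ℕ),
      {Q : ℙ K (Fin 2 → K) | ∃ w : ℕ → Fin s, Recurrent R d (B R d) (worb hf w Q)}.encard ≤ κ R d ∧
      ∀ (k : Fin s) (Q : ℙ K (Fin 2 → K)), Recurrent R d (B R d) (fun t => (pmap (hf k))^[t] Q) →
        (Set.range fun t => (pmap (hf k))^[t] Q).encard ≤ B R d := by
  classical
  obtain ⟨M, C, hM, h⟩ := dyn_points 1 s D
  refine ⟨fun R d => M R d + 2 * C R d,
    fun R d => s ^ (C R d + M R d) * (1 + (D ^ (C R d + M R d) + D ^ C R d)),
    fun K _ _ f hf R d => ⟨?_, fun k Q hP => ?_⟩⟩
  · refine (Set.encard_le_encard ?_).trans (encard_agree hf (C R d) (hM R d))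
    rintro Q ⟨w, hw⟩
    exact ⟨w, h K f hf R d _ (worb hf w Q) (fun t _ => ⟨w t, rfl⟩) hw (C R d) le_rfl (by
      change C R d + M R d + C R d ≤ M R d + 2 * C R d
      omega)⟩
  · have h1 : (pmap (hf k))^[C R d + M R d] Q = (pmap (hf k))^[C R d] Q :=
      h K f hf R d _ (fun t => (pmap (hf k))^[t] Q) (fun t _ => ⟨k, by
        simp only [Function.iterate_succ_apply']⟩) hP (C R d) le_rfl (by
        change C R d + M R d + C R d ≤ M R d + 2 * C R d
        omega)
    have h2 : ∀ t, ∃ s < C R d + M R d, (pmap (hf k))^[s] Q = (pmap (hf k))^[t] Q := by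
      intro t
      induction t using Nat.strong_induction_on with
      | _ t ih =>
        rcases Nat.lt_or_ge t (C R d + M R d) with h3 | h3
        · exact ⟨t, h3, rfl⟩
        · have hMR := hM R d
          obtain ⟨s, hs, hs'⟩ := ih (t - M R d) (by omega)
          refine ⟨s, hs, hs'.trans ?_⟩
          have e1 : t - M R d = (t - (C R d + M R d)) + C R d := by omega
          have e2 : t = (t - (C R d + M R d)) + (C R d + M R d) := by omega
          conv_rhs => rw [e2]
          rw [e1, Function.iterate_add_apply, Function.iterate_add_apply _ _ (C R d + M R d), h1]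
    have h3 : (Set.range fun t => (pmap (hf k))^[t] Q) ⊆
        (fun t => (pmap (hf k))^[t] Q) '' ((Finset.range (C R d + M R d) : Finset ℕ) : Set ℕ) := by
      rintro _ ⟨t, rfl⟩
      obtain ⟨s, hs, hs'⟩ := h2 t
      exact ⟨s, Finset.mem_coe.2 (Finset.mem_range.2 hs), hs'⟩
    refine (Set.encard_le_encard h3).trans ((Set.encard_image_le _ _).trans ?_)
    rw [Set.encard_coe_eq_coe_finsetCard, Finset.card_range]
    exact_mod_cast (by omega : C R d + M R d ≤ M R d + 2 * C R d)

end Pool.Agent.Results.MP_90787a_nt.RecurrentPreperiodic
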